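import Pool.Agent.P8H98.DF.Stm

/-!
# Project DF (self-avoiding walks on `ℤ⁴`), package POOR: walks with few free plaquettes and few
bumps are rare (adapted from `TH966/KO/POOR.lean` and `H246KN/POOR.lean`)
-/

set_option autoImplicit false

namespace Pool.Agent.P8H21.DF

open Finset Filter Topology
open scoped Classical
open Pool.Agent.P8H98.DF

noncomputable section

namespace POOR

theorem bump_cons {d : Dir} {u : List Dir} {j : ℕ} (h : bump u j) : bump (d :: u) (j + 1) := by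
  obtain ⟨h1, h2, h3⟩ := h
  refine ⟨?_, ?_, ?_⟩
  · simp only [List.length_cons]; omega
  · have e1 : (d :: u).getD (j + 1) .xp = u.getD j .xp := by simp
    have e2 : (d :: u).getD (j + 1 + 2) .xp = u.getD (j + 2) .xp := by
      rw [show j + 1 + 2 = (j + 2) + 1 by ring]; simp
    rw [e1, e2]; exact h2
  · have e1 : (d :: u).getD (j + 1) .xp = u.getD j .xp := by simp
    have e2 : (d :: u).getD (j + 1 + 1) .xp = u.getD (j + 1) .xp := by simp
    rw [e1, e2]; exact h3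

theorem bu_le (d : Dir) (u : List Dir) : bu u ≤ bu (d :: u) := by
  unfold bu
  refine Finset.card_le_card_of_injOn (fun j => j + 1) ?_ ?_
  · intro j hj
    have hj' : j ∈ bumps u := hj
    exact mem_bumps.2 (bump_cons (mem_bumps.1 hj'))
  · intro i _ j _ h
    simpa using h

theorem Hs_ge (p b : Dir) (u : Prop) (k : ℕ) : 1 ≤ Hs p b u k := by
  have hk : (0 : ℝ) ≤ k := Nat.cast_nonneg k
  unfold Hs
  split_ifs <;> linarith

theorem Hx_ge (w : List Dir) : 1 ≤ Hx w := Hs_ge _ _ _ _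

theorem saw_tail {w : List Dir} (h1 : 4 ≤ w.length) (h3 : SAW w) : SAW w.tail := by
  cases w with
  | nil => simp at h1
  | cons d u => exact (List.nodup_cons.1 h3).2

/-- the constant -/
theorem const_pow : (1040 : ℝ) ≤ (106 / 105 : ℝ) ^ 1000 := by
  have h1 : (5 / 2 : ℝ) ≤ (106 / 105 : ℝ) ^ 100 := by norm_num
  calc (1040 : ℝ) ≤ (5 / 2) ^ 10 := by norm_num
    _ ≤ ((106 / 105 : ℝ) ^ 100) ^ 10 := by gcongr
    _ = (106 / 105 : ℝ) ^ 1000 := by rw [← pow_mul]

theorem pow_1040 (n : ℕ) : (1040 : ℝ) ^ (n / 1000) ≤ (106 / 105 : ℝ) ^ n := by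
  calc (1040 : ℝ) ^ (n / 1000) ≤ ((106 / 105 : ℝ) ^ 1000) ^ (n / 1000) := by
        gcongr
        exact const_pow
    _ = (106 / 105 : ℝ) ^ (1000 * (n / 1000)) := by rw [← pow_mul]
    _ ≤ (106 / 105 : ℝ) ^ n := pow_le_pow_right₀ (by norm_num) (Nat.mul_div_le n 1000)

theorem term_ge (h2 : S_SAT) {n : ℕ} {w : List Dir} (hl : 4 ≤ w.length) (hw : SAW w)
    (hf : 1000 * fr w ≤ n) (hb : 1000 * bu w ≤ n) :
    (25 / 26 : ℝ) ^ 40 * (1 / 1040 : ℝ) ^ (n / 1000) ≤
      (26 / 25 : ℝ) ^ (Gx w.tail) * (1 / 1000 : ℝ) ^ (bu w.tail) * Hx w.tail := by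
  set m := n / 1000 with hm
  have hf' : fr w ≤ m := by omega
  have hb' : bu w.tail ≤ m := by
    have h3 : bu w.tail ≤ bu w := by
      cases w with
      | nil => exact le_rfl
      | cons d u => exact bu_le d u
    omega
  have h4 := h2 w hl hw
  have h5 : (26 / 25 : ℝ) ^ (-(40 : ℤ) - m) ≤ (26 / 25 : ℝ) ^ (Gx w.tail) := by
    apply zpow_le_zpow_right₀ (by norm_num)
    have : ((fr w : ℕ) : ℤ) ≤ m := by exact_mod_cast hf'
    omega
  have h6 : (1 / 1000 : ℝ) ^ m ≤ (1 / 1000 : ℝ) ^ (bu w.tail) :=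
    pow_le_pow_of_le_one (by norm_num) (by norm_num) hb'
  have h7 : (26 / 25 : ℝ) ^ (-(40 : ℤ) - m) = (25 / 26 : ℝ) ^ 40 * (25 / 26 : ℝ) ^ m := by
    rw [sub_eq_add_neg, zpow_add₀ (by norm_num), zpow_neg, zpow_neg, zpow_natCast,
      show ((40 : ℤ)) = ((40 : ℕ) : ℤ) by norm_num, zpow_natCast, ← inv_pow, ← inv_pow]
    norm_num
  have h8 : (25 / 26 : ℝ) ^ 40 * (1 / 1040 : ℝ) ^ m =
      (26 / 25 : ℝ) ^ (-(40 : ℤ) - m) * (1 / 1000 : ℝ) ^ m * 1 := by
    rw [h7, mul_one, mul_assoc, ← mul_pow]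
    norm_num
  rw [h8]
  gcongr
  exact Hx_ge _

end POOR

theorem sum_small : ∃ S : ℝ, 0 ≤ S ∧ ∀ n : ℕ, n < 4 → ((SS n).card : ℝ) ≤ S :=
  ⟨∑ m ∈ range 4, ((SS m).card : ℝ), Finset.sum_nonneg fun m _ => Nat.cast_nonneg _,
    fun n hn => Finset.single_le_sum (f := fun m => ((SS m).card : ℝ))
      (fun m _ => Nat.cast_nonneg _) (Finset.mem_range.2 hn)⟩

theorem poor : S_POOR := by
  intro h1 h2
  obtain ⟨S, hS0, hS⟩ := sum_small
  refine ⟨8 * (7408 * (26 / 25 : ℝ) ^ 40) + S, fun n => ?_⟩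
  set A := (SS n).filter (fun w => 1000 * fr w ≤ n ∧ 1000 * bu w ≤ n) with hA
  have hp1 : (1 : ℝ) ≤ (53 / 10 : ℝ) ^ n := one_le_pow₀ (by norm_num)
  rcases lt_or_ge n 4 with hn | hn
  · have h3 : (A.card : ℝ) ≤ ((SS n).card : ℝ) := by
      exact_mod_cast Finset.card_le_card (Finset.filter_subset _ _)
    have h4 : ((SS n).card : ℝ) ≤ S := hS n hn
    have h5 : (0 : ℝ) ≤ 8 * (7408 * (26 / 25 : ℝ) ^ 40) := by positivity
    calc (A.card : ℝ) ≤ (8 * (7408 * (26 / 25 : ℝ) ^ 40) + S) * 1 := by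
          linarith
      _ ≤ _ := by
          apply mul_le_mul_of_nonneg_left hp1
          linarith
  · have hmem : ∀ w ∈ A, w.length = n ∧ SAW w ∧ 1000 * fr w ≤ n ∧ 1000 * bu w ≤ n := by
      intro w hw
      rw [hA, Finset.mem_filter, mem_SS] at hw
      exact ⟨hw.1.1, hw.1.2, hw.2.1, hw.2.2⟩
    set T := A.image List.tail with hT
    have hfib : A.card ≤ 8 * T.card := by
      refine Finset.card_le_mul_card_image A 8 fun u _ => ?_
      have h3 : (A.filter (fun w => w.tail = u)).card ≤ (univ : Finset Dir).card := by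
        apply Finset.card_le_card_of_injOn (fun w => w.getD 0 .xp)
        · intro w _; simp
        · intro w hw w' hw' h
          have h4 := Finset.mem_filter.1 (Finset.mem_coe.1 hw)
          have h5 := Finset.mem_filter.1 (Finset.mem_coe.1 hw')
          have l1 := (hmem w h4.1).1
          have l2 := (hmem w' h5.1).1
          obtain ⟨d, v, rfl⟩ := List.exists_cons_of_ne_nil (l := w) (by
            rintro rfl; simp at l1; omega)
          obtain ⟨d', v', rfl⟩ := List.exists_cons_of_ne_nil (l := w') (by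
            rintro rfl; simp at l2; omega)
          have e1 : v = u := h4.2
          have e2 : v' = u := h5.2
          have e3 : d = d' := h
          rw [e1, e2, e3]
      exact h3
    have himg : T ⊆ SS (n - 1) := by
      intro u hu
      obtain ⟨w, hw, rfl⟩ := Finset.mem_image.1 hu
      rw [mem_SS]
      refine ⟨?_, POOR.saw_tail (by rw [(hmem w hw).1]; exact hn) (hmem w hw).2.1⟩
      rw [List.length_tail, (hmem w hw).1]
    have hsum := h1 (n - 1) (by omega)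
    set c : ℝ := (25 / 26 : ℝ) ^ 40 * (1 / 1040 : ℝ) ^ (n / 1000) with hc
    have hlow : (T.card : ℝ) * c ≤
        ∑ w ∈ SS (n - 1), (26 / 25 : ℝ) ^ (Gx w) * (1 / 1000 : ℝ) ^ (bu w) * Hx w := by
      calc (T.card : ℝ) * c = ∑ _w ∈ T, c := by rw [Finset.sum_const, nsmul_eq_mul]
        _ ≤ ∑ w ∈ T, (26 / 25 : ℝ) ^ (Gx w) * (1 / 1000 : ℝ) ^ (bu w) * Hx w := by
            refine Finset.sum_le_sum fun u hu => ?_
            obtain ⟨w, hw, rfl⟩ := Finset.mem_image.1 hu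
            exact POOR.term_ge h2 (by rw [(hmem w hw).1]; exact hn) (hmem w hw).2.1
              (hmem w hw).2.2.1 (hmem w hw).2.2.2
        _ ≤ _ := by
            refine Finset.sum_le_sum_of_subset_of_nonneg himg fun w _ _ => ?_
            have := POOR.Hx_ge w
            positivity
    have h3 : (T.card : ℝ) * c ≤ 7408 * (21 / 4 : ℝ) ^ n := by
      refine (hlow.trans hsum).trans ?_
      have : (21 / 4 : ℝ) ^ (n - 1 - 1) ≤ (21 / 4 : ℝ) ^ n :=
        pow_le_pow_right₀ (by norm_num) (by omega)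
      linarith
    have hcc : c * ((26 / 25 : ℝ) ^ 40 * (1040 : ℝ) ^ (n / 1000)) = 1 := by
      rw [hc, mul_mul_mul_comm, ← mul_pow, ← mul_pow]
      norm_num
    have h4 : (T.card : ℝ) ≤ 7408 * (26 / 25 : ℝ) ^ 40 * (53 / 10 : ℝ) ^ n := by
      calc (T.card : ℝ) = (T.card : ℝ) * c * ((26 / 25 : ℝ) ^ 40 * (1040 : ℝ) ^ (n / 1000)) := by
            rw [mul_assoc, hcc, mul_one]
        _ ≤ 7408 * (21 / 4 : ℝ) ^ n * ((26 / 25 : ℝ) ^ 40 * (106 / 105 : ℝ) ^ n) := by
            gcongr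
            exact POOR.pow_1040 n
        _ = 7408 * (26 / 25 : ℝ) ^ 40 * ((21 / 4 : ℝ) ^ n * (106 / 105 : ℝ) ^ n) := by ring
        _ = 7408 * (26 / 25 : ℝ) ^ 40 * (53 / 10 : ℝ) ^ n := by
            rw [← mul_pow]
            norm_num
    have h5 : (A.card : ℝ) ≤ 8 * T.card := by exact_mod_cast hfib
    have h6 : (0 : ℝ) ≤ S * (53 / 10 : ℝ) ^ n := mul_nonneg hS0 (by positivity)
    calc (A.card : ℝ) ≤ 8 * (7408 * (26 / 25 : ℝ) ^ 40 * (53 / 10 : ℝ) ^ n) := by linarith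
      _ ≤ 8 * (7408 * (26 / 25 : ℝ) ^ 40 * (53 / 10 : ℝ) ^ n) +
          S * (53 / 10 : ℝ) ^ n := by linarith
      _ = _ := by ring

end

end Pool.Agent.P8H21.DF
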